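import Pool.Agent.W81.R1.Fin

/-!
The conjecture of Hardy and Littlewood for `x² + x + A`, with the exact constant, for almost all odd
`A` of every interval of length at least `x (log x)^B`.
-/

set_option autoImplicit false

namespace Pool.Agent.Results.MP_8be758_nt.AlmostAllOddA

open Finset Filter

/-- `P_A(n)`: the number of `0 ≤ t ≤ n` with `t² + t + A` prime -/
noncomputable def P (A n : ℕ) : ℕ :=
  ((range (n + 1)).filter (fun t : ℕ => (t ^ 2 + t + A).Prime)).card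

/-- `L_A(n)`: twice the integral of `1 / log (t² + t + A)` over `[0, n]` -/
noncomputable def LA (A n : ℕ) : ℝ :=
  2 * ∫ t in (0 : ℝ)..n, 1 / Real.log (t ^ 2 + t + A)

/-- `∏ (1 - (Δ/p)/(p-1))` over the odd primes `p < N`, where `Δ = 1 - 4A` -/
noncomputable def partialProd (A N : ℕ) : ℝ :=
  ∏ p ∈ (range N).filter (fun p : ℕ => Nat.Prime p ∧ 2 < p),
    (1 - ((jacobiSym (1 - 4 * (A : ℤ)) p : ℤ) : ℝ) / ((p : ℝ) - 1))

lemma prod_eq (A N : ℕ) : Pool.Agent.W80.EC.Pc ((1 : ℕ) : ℤ) (1 ^ 2 - 4 * ((1 : ℕ) : ℤ) * (A : ℤ)) N =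
    partialProd A N := by
  unfold Pool.Agent.W80.EC.Pc partialProd
  have hset : (range N).filter (fun p : ℕ => Nat.Prime p ∧ 2 < p ∧ ¬ ((p : ℤ) ∣ ((1 : ℕ) : ℤ))) =
      (range N).filter (fun p : ℕ => Nat.Prime p ∧ 2 < p) := by
    apply filter_congr
    intro p _
    constructor
    · rintro ⟨h1, h2, _⟩
      exact ⟨h1, h2⟩
    · rintro ⟨h1, h2⟩
      refine ⟨h1, h2, fun h => ?_⟩
      rw [Int.natCast_dvd_natCast, Nat.dvd_one] at h
      omega
  have e1 : (1 : ℤ) ^ 2 - 4 * ((1 : ℕ) : ℤ) * (A : ℤ) = 1 - 4 * (A : ℤ) := by push_cast; ring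
  rw [hset, e1]

/-- the sum over `1 ≤ t ≤ y` and the integral -/
lemma sum_int (A y : ℕ) (hA : 3 ≤ A) :
    |2 * Pool.Agent.H300R2.BH.lF (Pool.Agent.W80.EC.q2 ((1 : ℕ) : ℤ) 1 A) y - LA A y| ≤ 2 := by
  have hAr : (3 : ℝ) ≤ A := by exact_mod_cast hA
  set f : ℝ → ℝ := fun t => 1 / Real.log (t ^ 2 + t + A) with hf
  have hlog3 : 1 ≤ Real.log 3 := by
    rw [Real.le_log_iff_exp_le (by norm_num)]
    have := Real.exp_one_lt_d9
    linarith
  have hfpos : ∀ t : ℝ, 0 ≤ t → 0 ≤ f t ∧ f t ≤ 1 := by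
    intro t ht
    have h1 : (3 : ℝ) ≤ t ^ 2 + t + A := by nlinarith
    have h2 : 1 ≤ Real.log (t ^ 2 + t + A) := hlog3.trans (Real.log_le_log (by norm_num) h1)
    refine ⟨by simp only [hf]; positivity, ?_⟩
    simp only [hf]
    rw [div_le_one (by linarith)]
    exact h2
  have hanti : AntitoneOn f (Set.Icc ((0 : ℕ) : ℝ) (y : ℝ)) := by
    intro s hs t ht hst
    simp only [Set.mem_Icc, Nat.cast_zero] at hs ht
    simp only [hf]
    have h1 : (3 : ℝ) ≤ s ^ 2 + s + A := by nlinarith [hs.1]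
    have h2 : 1 ≤ Real.log (s ^ 2 + s + A) := hlog3.trans (Real.log_le_log (by norm_num) h1)
    apply one_div_le_one_div_of_le (by linarith)
    apply Real.log_le_log (by linarith)
    have h3 : s ^ 2 ≤ t ^ 2 := pow_le_pow_left₀ hs.1 hst 2
    linarith
  have h1 := hanti.sum_le_integral_Ico (Nat.zero_le y)
  have h2 := hanti.integral_le_sum_Ico (Nat.zero_le y)
  have hlF : Pool.Agent.H300R2.BH.lF (Pool.Agent.W80.EC.q2 ((1 : ℕ) : ℤ) 1 A) y =
      ∑ i ∈ Ico 0 y, f ((i + 1 : ℕ) : ℝ) := by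
    unfold Pool.Agent.H300R2.BH.lF
    have hset : (Icc 1 y).filter (fun k : ℕ =>
        2 ≤ (Pool.Agent.W80.EC.q2 ((1 : ℕ) : ℤ) 1 (A : ℤ)).eval (k : ℤ)) = Icc 1 y := by
      apply filter_true_of_mem
      intro k _
      rw [Pool.Agent.W80.EC.q2_eval]
      have h3 : (0 : ℤ) ≤ (k : ℤ) ^ 2 := by positivity
      have h4 : (3 : ℤ) ≤ A := by exact_mod_cast hA
      have h5 : (0 : ℤ) ≤ (k : ℤ) := Int.natCast_nonneg _
      push_cast
      linarith
    rw [hset]
    have himg : Icc 1 y = (Ico 0 y).image (fun i => i + 1) := by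
      ext k
      rw [mem_image, mem_Icc]
      constructor
      · rintro ⟨h3, h4⟩
        exact ⟨k - 1, by rw [mem_Ico]; omega, by omega⟩
      · rintro ⟨i, hi, rfl⟩
        rw [mem_Ico] at hi
        omega
    rw [himg, sum_image (fun a _ b _ h => by simpa using h)]
    apply sum_congr rfl
    intro i _
    rw [Pool.Agent.W80.EC.q2_eval]
    simp only [hf]
    push_cast
    ring_nf
  have hsum0 : ∑ i ∈ Ico 0 y, f ((i : ℕ) : ℝ) ≤ ∑ i ∈ Ico 0 y, f ((i + 1 : ℕ) : ℝ) + 1 := by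
    rw [Nat.Ico_zero_eq_range]
    have h3 : ∑ i ∈ range (y + 1), f ((i : ℕ) : ℝ) = ∑ i ∈ range y, f ((i + 1 : ℕ) : ℝ) + f ((0 : ℕ) : ℝ) :=
      sum_range_succ' (fun i : ℕ => f (i : ℝ)) y
    rw [sum_range_succ] at h3
    have h4 := (hfpos y (Nat.cast_nonneg _)).1
    have h5 := (hfpos ((0 : ℕ) : ℝ) (by norm_num)).2
    linarith
  have hLA : LA A y = 2 * ∫ t in ((0 : ℕ) : ℝ)..(y : ℝ), f t := by
    unfold LA
    rw [Nat.cast_zero]
  rw [hlF, hLA, abs_le]
  constructor <;> linarith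

lemma P_eq (A y : ℕ) : Pool.Agent.H300R2.BH.pv (Pool.Agent.W80.EC.q2 ((1 : ℕ) : ℤ) 1 A) y ≤ P A y ∧
    (P A y : ℝ) ≤ Pool.Agent.H300R2.BH.pv (Pool.Agent.W80.EC.q2 ((1 : ℕ) : ℤ) 1 A) y + 1 := by
  unfold Pool.Agent.H300R2.BH.pv P
  have e1 : ∀ k : ℕ, ((Pool.Agent.W80.EC.q2 ((1 : ℕ) : ℤ) 1 (A : ℤ)).eval (k : ℤ)).toNat = k ^ 2 + k + A := by
    intro k
    rw [Pool.Agent.W80.EC.q2_eval]
    have : ((1 : ℕ) : ℤ) * (k : ℤ) ^ 2 + 1 * k + A = ((k ^ 2 + k + A : ℕ) : ℤ) := by push_cast; ring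
    rw [this, Int.toNat_natCast]
  simp_rw [e1]
  constructor
  · have h1 : ((Icc 1 y).filter (fun k : ℕ => (k ^ 2 + k + A).Prime)).card ≤
        ((range (y + 1)).filter (fun t : ℕ => (t ^ 2 + t + A).Prime)).card := by
      apply card_le_card
      intro m hm
      rw [mem_filter, mem_Icc] at hm
      rw [mem_filter, mem_range]
      exact ⟨by omega, hm.2⟩
    exact_mod_cast h1
  · have hsub : (range (y + 1)).filter (fun t : ℕ => (t ^ 2 + t + A).Prime) ⊆
        insert 0 ((Icc 1 y).filter (fun k : ℕ => (k ^ 2 + k + A).Prime)) := by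
      intro m hm
      rw [mem_filter, mem_range] at hm
      rw [mem_insert, mem_filter, mem_Icc]
      rcases Nat.eq_zero_or_pos m with h | h
      · exact Or.inl h
      · exact Or.inr ⟨by omega, hm.2⟩
    exact_mod_cast (card_le_card hsub).trans (card_insert_le _ _)

open Classical in
/-- **The conjecture for almost all odd `A` in short intervals.** For all `C, U` there are `B, X₀`
such that for all `x ≥ X₀` and every interval `(a₀, a₀ + T]` with `a₀, T ≤ x² (log x)^C` and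
`T ≥ x (log x)^B`, all odd integers `A ≥ 3` of the interval but at most `T/(log x)^U` have the
following property: the product `C(Δ)`, `Δ = 1 - 4A`, converges, `C(Δ) ≥ 1/(8 log x)`, and
uniformly for all `y ≤ x`, `P_A(y) = C(Δ) (L_A(y) + O*(x/(log x)^U))`. -/
theorem result (C U : ℕ) : ∃ B X0 : ℕ, ∀ x : ℕ, X0 ≤ x → ∀ a0 T : ℕ,
    (a0 : ℝ) ≤ (x : ℝ) ^ 2 * Real.log x ^ C → x * Real.log x ^ B ≤ T →
    (T : ℝ) ≤ (x : ℝ) ^ 2 * Real.log x ^ C →
    ∃ Bad : Finset ℕ, (Bad.card : ℝ) ≤ T / Real.log x ^ U ∧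
      ∀ A : ℕ, a0 < A → A ≤ a0 + T → A ∉ Bad → Odd A → 3 ≤ A →
        ∃ K : ℝ, 0 < K ∧ Tendsto (fun N : ℕ => partialProd A N) atTop (nhds K) ∧
          1 / (8 * Real.log x) ≤ K ∧
          ∀ y : ℕ, y ≤ x → |(P A y : ℝ) - K * LA A y| ≤ K * (x / Real.log x ^ U) := by
  obtain ⟨B, hB⟩ := Pool.Agent.W81.R1.fin C (U + 1)
  obtain ⟨X0, hX0⟩ := eventually_atTop.mp (hB.and ((Pool.Agent.H442R2.EHI.evt_log_ge 100).and
    ((Pool.Agent.H442R2.EHI.evt_log_pow (U + 3) 1 (by norm_num)).and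
    (Pool.Agent.H442R2.EHI.evt_log_pow B 1 (by norm_num)))))
  refine ⟨B, X0, fun x hx a0 T ha0 hT hT2 => ?_⟩
  obtain ⟨hx1, hL100, hLx, hLB⟩ := hX0 x hx
  rw [Real.rpow_one] at hLx hLB
  have hB1 : ∀ n : ℕ, 1 ≤ Real.log x ^ n := fun n => one_le_pow₀ (by linarith)
  have hBp : ∀ n : ℕ, 0 < Real.log x ^ n := fun n => lt_of_lt_of_le one_pos (hB1 n)
  obtain ⟨Bad, hBad, hgood⟩ := hx1 1 1 a0 T le_rfl (by simpa using hB1 C)
    (by
      rw [Int.cast_one, abs_one, le_div_iff₀ (hBp _), one_mul]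
      exact hLB)
    (by
      rw [Int.cast_natCast, abs_of_nonneg (Nat.cast_nonneg _)]
      exact ha0) hT hT2
  set L := Real.log x with hL
  have hL0 : 0 < L := by linarith
  have hx0 : (0 : ℝ) < x := lt_of_lt_of_le (hBp _) hLx
  refine ⟨(Ioc a0 (a0 + T)).filter (fun n : ℕ => (n : ℤ) ∈ Bad), ?_, ?_⟩
  · have h1 : ((Ioc a0 (a0 + T)).filter (fun n : ℕ => (n : ℤ) ∈ Bad)).card ≤ Bad.card := by
      apply card_le_card_of_injOn (fun n : ℕ => (n : ℤ))
      · intro n hn
        rw [mem_coe, mem_filter] at hn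
        exact hn.2
      · intro a _ b _ h
        simpa using h
    have h2 : (((Ioc a0 (a0 + T)).filter (fun n : ℕ => (n : ℤ) ∈ Bad)).card : ℝ) ≤ Bad.card := by
      exact_mod_cast h1
    refine h2.trans (hBad.trans ?_)
    exact div_le_div_of_nonneg_left (Nat.cast_nonneg _) (hBp _) (pow_le_pow_right₀ (by linarith) (by omega))
  · intro A hA1 hA2 hAB hodd hA3
    have hnB' : (A : ℤ) ∉ Bad := by
      intro hcon
      apply hAB
      rw [mem_filter, mem_Ioc]
      exact ⟨⟨hA1, hA2⟩, hcon⟩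
    obtain ⟨K, hK, hlim, hlow, hall⟩ := hgood A (by rw [mem_Ioc]; omega) hnB' (by simp)
      (by
        rintro ⟨r, hr⟩
        have h1 : (0 : ℤ) ≤ r * r := mul_self_nonneg r
        push_cast at hr
        omega)
      (by
        rintro ⟨-, he⟩
        rw [Int.even_coe_nat, Nat.even_iff] at he
        obtain ⟨k, hk⟩ := hodd
        omega)
    have hep : Pool.Agent.W80.EC.ep ((1 : ℕ) : ℤ) 1 = 2 := by
      unfold Pool.Agent.W80.EC.ep
      rw [if_pos]
      decide
    have hGf : Pool.Agent.W80.EC.Gf ((1 : ℕ) : ℤ) 1 = 1 := by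
      unfold Pool.Agent.W80.EC.Gf
      have : Int.gcd ((1 : ℕ) : ℤ) 1 = 1 := by decide
      rw [this, Nat.primeFactors_one, filter_empty, prod_empty]
    rw [hep, hGf, mul_one] at hlow hall
    have hKlow : 1 / (8 * L) ≤ K := by
      have h1 : 1 / (8 * L) = (1 / (4 * L)) / 2 := by ring
      rw [h1]
      linarith
    have hK8 : 1 ≤ K * (8 * L) := by rwa [div_le_iff₀ (by positivity)] at hKlow
    refine ⟨K, hK, ?_, hKlow, fun y hy => ?_⟩
    · simp_rw [← prod_eq]
      exact hlim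
    · have h1 := hall y hy
      rw [← hL] at h1
      obtain ⟨hp1, hp2⟩ := P_eq A y
      have hs := sum_int A y hA3
      generalize Pool.Agent.H300R2.BH.pv (Pool.Agent.W80.EC.q2 ((1 : ℕ) : ℤ) 1 A) y = pw at h1 hp1 hp2
      generalize Pool.Agent.H300R2.BH.lF (Pool.Agent.W80.EC.q2 ((1 : ℕ) : ℤ) 1 A) y = lw at h1 hs
      generalize LA A y = la at hs ⊢
      set M := K * (x / L ^ U) with hM
      have hM0 : 0 ≤ M := by positivity
      have hone : 1 ≤ M / 4 := by
        rw [hM, mul_div_assoc', div_div, le_div_iff₀ (by positivity)]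
        have h2 : 32 * (L * L ^ U) ≤ x := by
          refine le_trans ?_ hLx
          rw [pow_add]
          have h3 : 32 * L ≤ L ^ 3 := by
            have h4 : 32 ≤ L ^ 2 := by nlinarith
            calc 32 * L ≤ L ^ 2 * L := by gcongr
              _ = L ^ 3 := by ring
          calc 32 * (L * L ^ U) = (32 * L) * L ^ U := by ring
            _ ≤ L ^ 3 * L ^ U := by gcongr
            _ = _ := by ring
        calc 1 * (L ^ U * 4) ≤ (K * (8 * L)) * (L ^ U * 4) := by gcongr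
          _ = K * (32 * (L * L ^ U)) := by ring
          _ ≤ K * x := by gcongr
      have h2K : K * 2 ≤ M / 4 := by
        rw [hM, mul_div_assoc]
        apply mul_le_mul_of_nonneg_left _ hK.le
        rw [div_div, le_div_iff₀ (by positivity)]
        refine le_trans ?_ hLx
        rw [pow_add]
        have h3 : 8 ≤ L ^ 3 := by
          calc (8 : ℝ) ≤ L ^ 1 := by rw [pow_one]; linarith
            _ ≤ L ^ 3 := pow_le_pow_right₀ (by linarith) (by norm_num)
        calc 2 * (L ^ U * 4) = 8 * L ^ U := by ring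
          _ ≤ L ^ 3 * L ^ U := by gcongr
          _ = _ := by ring
      have h3 : 2 * K * (x / L ^ (U + 1 + 1)) ≤ M / 4 := by
        have h4 : 2 * K * (x / L ^ (U + 1 + 1)) = M * (2 / L ^ 2) := by
          rw [hM, show U + 1 + 1 = U + 2 by ring, pow_add]
          field_simp
        have h5 : 2 / L ^ 2 ≤ 1 / 4 := by
          rw [div_le_iff₀ (by positivity)]
          nlinarith
        rw [h4]
        nlinarith
      have h6 : |K * (2 * lw - la)| ≤ K * 2 := by
        rw [abs_mul, abs_of_pos hK]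
        exact mul_le_mul_of_nonneg_left hs hK.le
      have h7 := abs_le.1 h6
      have h8 := abs_le.1 h1
      have e2 : K * (2 * lw - la) = 2 * K * lw - K * la := by ring
      rw [e2] at h7
      obtain ⟨h71, h72⟩ := h7
      obtain ⟨h81, h82⟩ := h8
      generalize K * la = u1 at h71 h72 ⊢
      generalize 2 * K * lw = u2 at h71 h72 h81 h82
      rw [abs_le]
      constructor <;> linarith

end Pool.Agent.Results.MP_8be758_nt.AlmostAllOddA
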