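import Mathlib
import Pool.Agent.W78.EG.Fin

/-!
Euler's polynomials `x^2+x+A`, `A = 2, 3, 5, 11, 17, 41`: the numbers of prime factors of the two
factors `d`, `d'` of the values `d d' = m^2 + m + A` are equidistributed modulo every `k`, at almost
all scales, in all windows and residue classes.

Method: pairs of elements of determinant `1` in the imaginary quadratic order of class number one,
Tao's entropy decrement argument on the Farey tree of its primitive elements, a large sieve estimate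
for prime determinants, the Matomaki-Radziwill theorem for the angles of the elements in residue
classes, and the inversion of a multiplicative convolution.
-/

set_option autoImplicit false

namespace Pool.Agent.Results.MP_8be758_nt.ClassNumberOneEquidist

open Finset Filter ArithmeticFunction

open scoped Classical in
/-- the pairs `(d, d')` of positive integers with `s₁ X < d ≤ s₂ X`, `s₃ X < d' ≤ s₄ X` and
`d d' = m^2 + m + A` for some `m ≥ 0` with `m ≡ u mod q` -/
noncomputable def Pairs (A : ℕ) (q u : ℕ) (s₁ s₂ s₃ s₄ : ℝ) (X : ℕ) : Finset (ℕ × ℕ) :=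
  (Icc 1 ⌊s₂ * X⌋₊ ×ˢ Icc 1 ⌊s₄ * X⌋₊).filter (fun p => s₁ * X < p.1 ∧ s₃ * X < p.2 ∧
    ∃ m : ℕ, p.1 * p.2 = m ^ 2 + m + A ∧ m ≡ u [MOD q])

/-- the deviation at scale `X` from the equidistribution of the residues modulo `k` of `Ω(d)` and
`Ω(d')` over the pairs with `d ≡ r mod q`, for the residues `i` and `j` -/
noncomputable def Dev (A : ℕ) (k q u r i j : ℕ) (s₁ s₂ s₃ s₄ : ℝ) (X : ℕ) : ℝ :=
  |(((Pairs A q u s₁ s₂ s₃ s₄ X).filter (fun p => p.1 ≡ r [MOD q] ∧
      cardFactors p.1 ≡ i [MOD k] ∧ cardFactors p.2 ≡ j [MOD k])).card : ℝ) -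
    1 / (k : ℝ) ^ 2 * (((Pairs A q u s₁ s₂ s₃ s₄ X).filter
      (fun p => p.1 ≡ r [MOD q])).card : ℝ)|

/-- Let `k, q ≥ 1`, `u ≥ 0`, and let `A` be one of `2, 3, 5, 11, 17, 41`.

* For some `c > 0` and all large `X` at least `c X` pairs `(d, d')` of positive integers `≤ X` have a
  product `d d' = m^2 + m + A` with `m ≡ u mod q`.
* For every residue class `r mod q`, all residues `i, j` modulo `k`, all `0 ≤ s₁ < s₂`,
  `0 ≤ s₃ < s₄` and every `ε > 0`: among the pairs with `d d' = m^2 + m + A`, `m ≡ u mod q`,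
  `d ≡ r mod q`, `s₁ X < d ≤ s₂ X`, `s₃ X < d' ≤ s₄ X`, the number of those with `Ω(d) ≡ i` and
  `Ω(d') ≡ j mod k` differs from `1/k²` of their number by at most `ε X`, for all `X` outside a set
  of logarithmic density `0`. -/
theorem result (A : ℕ) (hA : A ∈ ({2, 3, 5, 11, 17, 41} : Finset ℕ)) (k q u : ℕ) (hk : 1 ≤ k) (hq : 1 ≤ q) :
    (∃ c : ℝ, 0 < c ∧ ∃ X₀ : ℕ, ∀ X : ℕ, X₀ ≤ X →
      c * X ≤ ((Pairs A q u 0 1 0 1 X).card : ℝ)) ∧
    ∀ (r i j : ℕ) (s₁ s₂ s₃ s₄ : ℝ), 0 ≤ s₁ → s₁ < s₂ → 0 ≤ s₃ → s₃ < s₄ → ∀ ε : ℝ, 0 < ε →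
      Tendsto (fun N : ℕ => (∑ X ∈ (Icc 1 N).filter
        (fun X : ℕ => ε * X < Dev A k q u r i j s₁ s₂ s₃ s₄ X), 1 / (X : ℝ)) / Real.log N)
        atTop (nhds 0) := by
  have hD : (1 : ℤ) ^ 2 - 4 * 1 * (A : ℤ) ∈ Pool.Agent.W78.EG.disc9 := by
    simp only [Finset.mem_insert, Finset.mem_singleton] at hA
    rcases hA with rfl | rfl | rfl | rfl | rfl | rfl <;> norm_num [Pool.Agent.W78.EG.disc9]
  have h := Pool.Agent.W78.EG.fin9 (a := 1) (b := 1) (e := A) (by norm_num) hD (u := u) hk hq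
    (fun p : ℕ × ℕ => ∃ m : ℕ, p.1 * p.2 = m ^ 2 + m + A ∧ m ≡ u [MOD q])
    (fun p => exists_congr fun m => and_congr_left fun _ => by
      rw [one_mul, one_mul]
      constructor <;> intro h <;> exact_mod_cast h)
  exact h

end Pool.Agent.Results.MP_8be758_nt.ClassNumberOneEquidist
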