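import Pool.Agent.W218.PG.QI

set_option autoImplicit false

/-!
Conjecture F for `x^2 + x + A`: for a positive proportion of the odd `A` in `(B, 2B]` the number of prime values for
`0 ≤ x ≤ n` is at least `θ C(Δ) L_A(n)`, uniformly for `c log B ≤ n ≤ (κ B)^(1/2)`; and the same for `k` values of `A`
simultaneously.
-/

namespace Pool.Agent.Results.MP_8be758_nt.InitialSegmentExact

open Finset Filter Topology

/-- the number of `0 ≤ x ≤ n` such that all `x^2 + x + A_i` are prime -/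
def P {k : ℕ} (A : Fin k → ℕ) (n : ℕ) : ℕ := ((range (n + 1)).filter (fun x : ℕ => ∀ i, (x ^ 2 + x + A i).Prime)).card

/-- `L_A(n)` -/
noncomputable def L (A n : ℕ) : ℝ := 2 * ∫ x in (0 : ℝ)..n, 1 / Real.log (x ^ 2 + x + A)

/-- the product of `1 - (D|p)/(p-1)` over the primes `3 ≤ p ≤ N` -/
noncomputable def C (D : ℤ) (N : ℕ) : ℝ :=
  ∏ p ∈ (Ioc 2 N).filter Nat.Prime, (1 - (jacobiSym D p : ℝ) / (p - 1))

/-- the number of residues `x` mod `p` such that `p` divides `x^2 + x + A_i` for some `i` -/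
def nu {k : ℕ} (A : Fin k → ℕ) (p : ℕ) : ℕ := ((range p).filter (fun x : ℕ => ∃ i, p ∣ x ^ 2 + x + A i)).card

/-- the product over the primes `p ≤ z` of `(1 - 1/p)^(-k) (1 - nu(p)/p)` -/
noncomputable def HL {k : ℕ} (A : Fin k → ℕ) (z : ℕ) : ℝ :=
  ∏ p ∈ (range (z + 1)).filter Nat.Prime, (((1 - 1 / (p : ℝ)) ^ k)⁻¹ * (1 - (nu A p : ℝ) / p))

lemma L_le {A B n : ℕ} (hB : 3 ≤ B) (hAB : B < A) : L A n ≤ 2 * (n / Real.log B) := by
  unfold L
  have hBr : (3 : ℝ) ≤ B := by exact_mod_cast hB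
  have hABr : (B : ℝ) ≤ A := by exact_mod_cast hAB.le
  have hlB : 0 < Real.log B := Real.log_pos (by linarith)
  have h := intervalIntegral.norm_integral_le_of_norm_le_const (a := (0 : ℝ)) (b := (n : ℝ))
    (f := fun x : ℝ => 1 / Real.log (x ^ 2 + x + A)) (C := 1 / Real.log B) (by
      intro x hx
      rw [Set.uIoc_of_le (Nat.cast_nonneg n)] at hx
      have hx0 : 0 < x := hx.1
      have h1 : Real.log B ≤ Real.log (x ^ 2 + x + A) := by
        apply Real.log_le_log (by linarith)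
        nlinarith
      rw [Real.norm_eq_abs, abs_of_nonneg (by
        apply div_nonneg zero_le_one; linarith)]
      exact one_div_le_one_div_of_le hlB h1)
  have h2 := (le_abs_self _).trans h
  rw [sub_zero, Nat.abs_cast] at h2
  have h3 : 1 / Real.log B * n = n / Real.log B := by ring
  rw [h3] at h2
  linarith

open Classical in
theorem result :
    (∀ c : ℝ, 0 < c → ∀ θ : ℝ, 0 ≤ θ → θ < 1 → ∃ κ : ℝ, 0 < κ ∧ ∃ B₀ : ℕ, ∀ B : ℕ, B₀ ≤ B →
      ∀ n : ℕ, c * Real.log B ≤ n → (n : ℝ) ^ 2 ≤ κ * B →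
      κ * B ≤ (((Ioc B (2 * B)).filter (fun A : ℕ => Odd A ∧
        ∃ K : ℝ, 0 < K ∧ Tendsto (C (1 - 4 * (A : ℤ))) atTop (𝓝 K) ∧
          θ * (K * L A n) ≤ P (fun _ : Fin 1 => A) n ∧
          κ * (n / Real.log B) ≤ P (fun _ : Fin 1 => A) n)).card : ℝ)) ∧
    (∀ k : ℕ, 1 ≤ k → ∀ c : ℝ, 0 < c → ∀ θ : ℝ, θ < 1 → ∃ κ : ℝ, 0 < κ ∧ ∀ z : ℕ, ∃ B₀ : ℕ, ∀ B : ℕ, B₀ ≤ B →
      ∀ n : ℕ, c * Real.log B ^ k ≤ n → (n : ℝ) ^ 2 ≤ κ * B →
      κ * B ^ k ≤ (((Fintype.piFinset (fun _ : Fin k => Ioc B (2 * B))).filter (fun A =>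
        θ * HL A z * (n / Real.log B ^ k) ≤ P A n ∧
        κ * (n / Real.log B ^ k) ≤ P A n)).card : ℝ)) := by
  have hval : ∀ (b t : ℕ), ((1 : ℤ) * (t : ℤ) ^ 2 + 1 * (t : ℤ) + (b : ℤ)).toNat = t ^ 2 + t + b := by
    intro b t
    have : ((1 : ℤ) * (t : ℤ) ^ 2 + 1 * (t : ℤ) + (b : ℤ)) = ((t ^ 2 + t + b : ℕ) : ℤ) := by push_cast; ring
    rw [this, Int.toNat_natCast]
  constructor
  · intro c hc θ hθ0 hθ
    obtain ⟨κ, hκ, x0, h⟩ := Pool.Agent.W218.PG.quadI 1 1 (Or.inl rfl) c hc θ hθ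
    refine ⟨min (κ / 2) (1 / 2), by positivity, ⌈Real.exp (2 + (x0 + 1 : ℕ) / c)⌉₊, fun A hA x hcx hxA => ?_⟩
    have hA1 : Real.exp (2 + (x0 + 1 : ℕ) / c) ≤ A := (Nat.le_ceil _).trans (by exact_mod_cast hA)
    have hA0 : (0 : ℝ) < A := lt_of_lt_of_le (Real.exp_pos _) hA1
    have hlA : 2 + ((x0 + 1 : ℕ) : ℝ) / c ≤ Real.log A := by
      rwa [Real.le_log_iff_exp_le hA0]
    have hcp : (0 : ℝ) ≤ ((x0 + 1 : ℕ) : ℝ) / c := by positivity
    have hA3 : 3 ≤ A := by
      have h1 : (3 : ℝ) ≤ A := by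
        have h2 := Real.add_one_le_exp (2 + ((x0 + 1 : ℕ) : ℝ) / c)
        linarith
      exact_mod_cast h1
    have hx1 : x0 + 1 ≤ x := by
      have h1 : ((x0 + 1 : ℕ) : ℝ) / c ≤ Real.log A := by linarith
      rw [div_le_iff₀ hc] at h1
      have : ((x0 + 1 : ℕ) : ℝ) ≤ x := by linarith
      exact_mod_cast this
    have hxr : (1 : ℝ) ≤ x := by exact_mod_cast (by omega : 1 ≤ x)
    have hxA2 : (x : ℝ) ^ 2 ≤ 1 / 2 * A := hxA.trans (mul_le_mul_of_nonneg_right (min_le_right _ _) hA0.le)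
    have hxA1 : x ≤ A := by
      have : (x : ℝ) ≤ A := by nlinarith
      exact_mod_cast this
    have h1 := h x (by omega) A hxA1 hcx (by
      intro t ht1 ht2
      have h2 : ((1 * (t : ℤ) ^ 2 + 1 * t : ℤ) : ℝ) = (t : ℝ) ^ 2 + t := by push_cast; ring
      rw [h2, abs_of_nonneg (by positivity)]
      have h4 : (t : ℝ) ≤ x := by exact_mod_cast ht2
      have h5 : (1 : ℝ) ≤ t := by exact_mod_cast ht1
      calc (t : ℝ) ^ 2 + t ≤ 2 * (x : ℝ) ^ 2 := by nlinarith
        _ ≤ 2 * (min (κ / 2) (1 / 2) * A) := by linarith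
        _ ≤ 2 * ((κ / 2) * A) := by
            have := mul_le_mul_of_nonneg_right (min_le_left (κ / 2) (1 / 2)) hA0.le
            linarith
        _ = κ * A := by ring)
    refine le_trans (mul_le_mul_of_nonneg_right ((min_le_left _ _).trans (by linarith)) hA0.le) (h1.trans ?_)
    have hsub : (Ioc A (2 * A)).filter (fun b : ℕ => ¬ IsSquare ((1 : ℤ) ^ 2 - 4 * 1 * (b : ℤ)) ∧
        (¬ (2 : ℤ) ∣ 1 → ¬ (2 : ℤ) ∣ (b : ℤ)) ∧
        ∃ K : ℝ, 0 < K ∧ Tendsto (fun N => Pool.Agent.W468.ConjF.PJ ((1 : ℤ) ^ 2 - 4 * 1 * (b : ℤ)) 2 N) atTop (𝓝 K) ∧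
          θ * (Pool.Agent.W218.PG.e2 1 * K) * (x / Real.log A) ≤ Pool.Agent.W218.PG.cq 1 1 b x ∧
          κ * (x / Real.log A) ≤ Pool.Agent.W218.PG.cq 1 1 b x) ⊆
        (Ioc A (2 * A)).filter (fun b : ℕ => Odd b ∧
        ∃ K : ℝ, 0 < K ∧ Tendsto (C (1 - 4 * (b : ℤ))) atTop (𝓝 K) ∧
          θ * (K * L b x) ≤ P (fun _ : Fin 1 => b) x ∧
          min (κ / 2) (1 / 2) * (x / Real.log A) ≤ P (fun _ : Fin 1 => b) x) := by
      intro b hb
      rw [mem_filter] at hb ⊢
      obtain ⟨hbI, hsq, hodd, K, hK0, hK, h2, h3⟩ := hb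
      have hcnt : (Pool.Agent.W218.PG.cq 1 1 b x : ℝ) ≤ P (fun _ : Fin 1 => b) x := by
        have : Pool.Agent.W218.PG.cq 1 1 b x ≤ P (fun _ : Fin 1 => b) x := by
          unfold Pool.Agent.W218.PG.cq P
          apply card_le_card
          intro t ht
          rw [mem_filter, mem_Icc] at ht
          rw [mem_filter, mem_range]
          refine ⟨by omega, fun _ => ?_⟩
          rw [← hval]; exact ht.2
        exact_mod_cast this
      have he : Pool.Agent.W218.PG.e2 1 = 2 := by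
        unfold Pool.Agent.W218.PG.e2; rw [if_neg (by norm_num)]
      have hlA0 : 0 ≤ Real.log A := by linarith
      refine ⟨hbI, ?_, K, hK0, ?_, ?_, ?_⟩
      · have h4 := hodd (by norm_num)
        rw [← Nat.not_even_iff_odd, even_iff_two_dvd]
        intro h5
        exact h4 (by exact_mod_cast h5)
      · refine hK.congr (fun N => ?_)
        unfold Pool.Agent.W468.ConjF.PJ C
        have e : (1 : ℤ) ^ 2 - 4 * 1 * (b : ℤ) = 1 - 4 * (b : ℤ) := by ring
        rw [e]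
      · refine le_trans ?_ (h2.trans hcnt)
        rw [he]
        have hL := L_le (n := x) hA3 (mem_Ioc.1 hbI).1
        calc θ * (K * L b x) ≤ θ * (K * (2 * (x / Real.log A))) := by gcongr
          _ = _ := by ring
      · refine le_trans ?_ (h3.trans hcnt)
        exact mul_le_mul_of_nonneg_right ((min_le_left _ _).trans (by linarith)) (by positivity)
    exact_mod_cast card_le_card hsub
  · intro k hk c hc θ hθ
    obtain ⟨κ, hκ, h⟩ := Pool.Agent.W218.PG.mainI k hk (fun _ => Pool.Agent.W218.PG.Fq 1 1)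
      (fun i => by rw [Pool.Agent.W218.PG.Fq_deg 1 1 (by norm_num)]; norm_num) c hc θ hθ
    refine ⟨min (κ / 2) (1 / 2), by positivity, fun z => ?_⟩
    obtain ⟨x0, h⟩ := h z
    refine ⟨⌈Real.exp (1 + (x0 + 1 : ℕ) / c)⌉₊, fun A hA x hcx hxA => ?_⟩
    have hA1 : Real.exp (1 + (x0 + 1 : ℕ) / c) ≤ A := (Nat.le_ceil _).trans (by exact_mod_cast hA)
    have hA0 : (0 : ℝ) < A := lt_of_lt_of_le (Real.exp_pos _) hA1
    have hlA : 1 + ((x0 + 1 : ℕ) : ℝ) / c ≤ Real.log A := by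
      rwa [Real.le_log_iff_exp_le hA0]
    have hlA1 : 1 ≤ Real.log A := by
      have : (0 : ℝ) ≤ ((x0 + 1 : ℕ) : ℝ) / c := by positivity
      linarith
    have hx1 : x0 + 1 ≤ x := by
      have h1 : ((x0 + 1 : ℕ) : ℝ) / c ≤ Real.log A ^ k := by
        calc ((x0 + 1 : ℕ) : ℝ) / c ≤ Real.log A := by linarith
          _ ≤ Real.log A ^ k := le_self_pow₀ hlA1 (by omega)
      rw [div_le_iff₀ hc] at h1
      have : ((x0 + 1 : ℕ) : ℝ) ≤ x := by linarith
      exact_mod_cast this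
    have hxr : (1 : ℝ) ≤ x := by exact_mod_cast (by omega : 1 ≤ x)
    have hxA2 : (x : ℝ) ^ 2 ≤ 1 / 2 * A := hxA.trans (mul_le_mul_of_nonneg_right (min_le_right _ _) hA0.le)
    have hxA1 : x ≤ A := by
      have : (x : ℝ) ≤ A := by nlinarith
      exact_mod_cast this
    have h1 := h x (by omega) A hxA1 hcx (by
      intro i t ht1 ht2
      rw [Pool.Agent.W218.PG.Fq_eval]
      have h2 : ((1 * (t : ℤ) ^ 2 + 1 * t : ℤ) : ℝ) = (t : ℝ) ^ 2 + t := by push_cast; ring
      rw [h2, abs_of_nonneg (by positivity)]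
      have h4 : (t : ℝ) ≤ x := by exact_mod_cast ht2
      have h5 : (1 : ℝ) ≤ t := by exact_mod_cast ht1
      calc (t : ℝ) ^ 2 + t ≤ 2 * (x : ℝ) ^ 2 := by nlinarith
        _ ≤ 2 * (min (κ / 2) (1 / 2) * A) := by linarith
        _ ≤ 2 * ((κ / 2) * A) := by
            have := mul_le_mul_of_nonneg_right (min_le_left (κ / 2) (1 / 2)) hA0.le
            linarith
        _ = κ * A := by ring)
    refine le_trans (mul_le_mul_of_nonneg_right ((min_le_left _ _).trans (by linarith)) (by positivity)) (h1.trans ?_)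
    have hsub : (Fintype.piFinset (fun _ : Fin k => Ioc A (2 * A))).filter (fun b =>
        θ * Pool.Agent.W218.PG.EI (fun _ => Pool.Agent.W218.PG.Fq 1 1) b z * (x / Real.log A ^ k) ≤
          Pool.Agent.W218.PG.cntI (fun _ => Pool.Agent.W218.PG.Fq 1 1) b x ∧
        κ * (x / Real.log A ^ k) ≤ Pool.Agent.W218.PG.cntI (fun _ => Pool.Agent.W218.PG.Fq 1 1) b x) ⊆
        (Fintype.piFinset (fun _ : Fin k => Ioc A (2 * A))).filter (fun b =>
        θ * HL b z * (x / Real.log A ^ k) ≤ P b x ∧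
        min (κ / 2) (1 / 2) * (x / Real.log A ^ k) ≤ P b x) := by
      intro b hb
      rw [mem_filter] at hb ⊢
      obtain ⟨hbI, h2, h3⟩ := hb
      have hcnt : (Pool.Agent.W218.PG.cntI (fun _ => Pool.Agent.W218.PG.Fq 1 1) b x : ℝ) ≤ P b x := by
        have : Pool.Agent.W218.PG.cntI (fun _ => Pool.Agent.W218.PG.Fq 1 1) b x ≤ P b x := by
          unfold Pool.Agent.W218.PG.cntI P
          apply card_le_card
          intro t ht
          rw [mem_filter, mem_Icc] at ht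
          rw [mem_filter, mem_range]
          refine ⟨by omega, fun i => ?_⟩
          have := ht.2 i
          rw [Pool.Agent.W218.PG.Fq_eval, hval] at this
          exact this
        exact_mod_cast this
      have hnu : ∀ p : ℕ, Pool.Agent.W218.PG.wI
          (Pool.Agent.W218.PG.Vf (fun _ => Pool.Agent.W218.PG.Fq 1 1) b) p = nu b p := by
        intro p
        unfold Pool.Agent.W218.PG.wI nu Pool.Agent.W218.PG.Vf
        congr 1
        ext r
        simp only [mem_filter]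
        apply and_congr_right
        intro _
        apply exists_congr
        intro i
        rw [Pool.Agent.W218.PG.Fq_eval]
        have : ((1 : ℤ) * (r : ℤ) ^ 2 + 1 * (r : ℤ) + (b i : ℤ)) = ((r ^ 2 + r + b i : ℕ) : ℤ) := by
          push_cast; ring
        rw [this, Int.natCast_dvd_natCast]
      have hE : Pool.Agent.W218.PG.EI (fun _ => Pool.Agent.W218.PG.Fq 1 1) b z = HL b z := by
        unfold Pool.Agent.W218.PG.EI HL Pool.Agent.W218.PF.PS
        apply prod_congr rfl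
        intro p _
        rw [hnu p]
      rw [hE] at h2
      refine ⟨hbI, h2.trans hcnt, le_trans ?_ (h3.trans hcnt)⟩
      exact mul_le_mul_of_nonneg_right ((min_le_left _ _).trans (by linarith)) (by positivity)
    exact_mod_cast card_le_card hsub

end Pool.Agent.Results.MP_8be758_nt.InitialSegmentExact
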