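import Mathlib
import Pool.Agent.W78.EG.Sq4

/-!
Squarefree values of `m^2 + m + A`, `A = 3, 5, 11, 17, 41`: for every modulus `k` each residue class
of the number of prime factors contains many of them, and the numbers of prime factors of the two
factors of their factorisations are equidistributed modulo `k`.

Method: pairs of elements of determinant `1` in the imaginary quadratic order of class number one,
Tao's entropy decrement argument on the Farey tree of its primitive elements, a large sieve estimate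
for prime determinants, the Matomaki-Radziwill theorem for the angles of the elements in residue
classes, a sieve for squares, and the inversion of a multiplicative convolution.
-/

set_option autoImplicit false

namespace Pool.Agent.Results.MP_8be758_nt.SquarefreeEulerResidues

open Finset Filter ArithmeticFunction

open scoped Classical in
/-- the pairs `(d, d')` of positive integers with `s₁ X < d ≤ s₂ X`, `s₃ X < d' ≤ s₄ X`,
`d d'` squarefree and `d d' = m^2 + m + A` for some `m ≥ 0` with `m ≡ u mod q` -/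
noncomputable def Pairs (A q u : ℕ) (s₁ s₂ s₃ s₄ : ℝ) (X : ℕ) : Finset (ℕ × ℕ) :=
  (Icc 1 ⌊s₂ * X⌋₊ ×ˢ Icc 1 ⌊s₄ * X⌋₊).filter (fun p => s₁ * X < p.1 ∧ s₃ * X < p.2 ∧
    Squarefree (p.1 * p.2) ∧ ∃ m : ℕ, p.1 * p.2 = m ^ 2 + m + A ∧ m ≡ u [MOD q])

/-- the deviation at scale `X` from the equidistribution of the residues modulo `k` of `Ω(d)` and
`Ω(d')` over the pairs with `d ≡ r mod q`, for the residues `i` and `j` -/
noncomputable def Dev (A k q u r i j : ℕ) (s₁ s₂ s₃ s₄ : ℝ) (X : ℕ) : ℝ :=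
  |(((Pairs A q u s₁ s₂ s₃ s₄ X).filter (fun p => p.1 ≡ r [MOD q] ∧
      cardFactors p.1 ≡ i [MOD k] ∧ cardFactors p.2 ≡ j [MOD k])).card : ℝ) -
    1 / (k : ℝ) ^ 2 * (((Pairs A q u s₁ s₂ s₃ s₄ X).filter
      (fun p => p.1 ≡ r [MOD q])).card : ℝ)|

open scoped Classical in
/-- the number of the integers `0 ≤ m ≤ X`, `m ≡ u mod q`, for which `m^2 + m + A` is squarefree
and the number of its prime factors is congruent to `j` modulo `k` -/
noncomputable def count (A q u k j X : ℕ) : ℕ :=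
  ((range (X + 1)).filter (fun m : ℕ => m ≡ u [MOD q] ∧ Squarefree (m ^ 2 + m + A) ∧
    cardFactors (m ^ 2 + m + A) ≡ j [MOD k])).card

open scoped Classical in
/-- the set of the positive integers `X` with `P X` has logarithmic density `0` -/
def LogNull (P : ℕ → Prop) : Prop :=
  Tendsto (fun Z : ℕ => (∑ X ∈ (Icc 1 Z).filter P, 1 / (X : ℝ)) / Real.log Z) atTop (nhds 0)

/-- Let `A` be one of `3, 5, 11, 17, 41`, and let `k, q ≥ 1` and `u ≥ 0` be such that `u^2 + u + A` is
not divisible by the square of a prime whose square divides `q`.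

1. At least `c X` of the pairs `(d, d')` in `[1, X]²` have a squarefree product `m^2 + m + A`,
   `m ≡ u mod q`, for some `c > 0` and all large `X`.
2. For almost all `X` the residues modulo `k` of `(Ω(d), Ω(d'))` are equidistributed over `Pairs`, up
   to `o(X)`, in every window and for `d` in every residue class modulo `q`.
3. For each `j`, every `ε > 0` and almost all `X`, `count A q u k j X` is at least
   `X / (log X)^(2 log 2 + ε)`.
4. For each `j`, every `δ > 0` and all large `X`, `count A q u k j X` is at least `X^(1 - δ)`. -/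
theorem result (A : ℕ) (hA : A = 3 ∨ A = 5 ∨ A = 11 ∨ A = 17 ∨ A = 41) (k q u : ℕ) (hk : 1 ≤ k)
    (hq : 1 ≤ q) (hu : ∀ l : ℕ, l.Prime → l ^ 2 ∣ q → ¬ l ^ 2 ∣ u ^ 2 + u + A) :
    (∃ c : ℝ, 0 < c ∧ ∃ X₀ : ℕ, ∀ X : ℕ, X₀ ≤ X →
      c * X ≤ ((Pairs A q u 0 1 0 1 X).card : ℝ)) ∧
    (∀ (r i j : ℕ) (s₁ s₂ s₃ s₄ : ℝ), 0 ≤ s₁ → s₁ < s₂ → 0 ≤ s₃ → s₃ < s₄ → ∀ ε : ℝ, 0 < ε →
      LogNull (fun X : ℕ => ε * X < Dev A k q u r i j s₁ s₂ s₃ s₄ X)) ∧
    (∀ (j : ℕ) (ε : ℝ), 0 < ε →
      LogNull (fun X => (count A q u k j X : ℝ) < X / Real.log X ^ (2 * Real.log 2 + ε))) ∧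
    ∀ (j : ℕ) (δ : ℝ), 0 < δ →
      ∃ X₀ : ℕ, ∀ X : ℕ, X₀ ≤ X → (X : ℝ) ^ (1 - δ) ≤ count A q u k j X :=
  Pool.Agent.W78.EGQ.sqf9 (t := 1) (c := A) (A := 1) (β := 0) (e := A)
    ⟨le_rfl, by norm_num, by omega, by ring, squarefree_one, fun m => Nat.coprime_one_left _⟩
    (by rcases hA with rfl | rfl | rfl | rfl | rfl <;> simp) hk hq u (fun m => m ^ 2 + m + A)
    (fun m => by unfold Pool.Agent.W78.EGQ.fq; ring) hu

end Pool.Agent.Results.MP_8be758_nt.SquarefreeEulerResidues
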